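import Pool.Agent.Q201.Dist2

/-!
# A distributionally chaotic operator with a dense subspace of null orbits that is not
`m_n`-distributionally chaotic for `m_n = n² + 1`
-/

set_option autoImplicit false

open Filter Topology
open scoped ENNReal

namespace Pool.Agent.Results.MP_890ea4_an.DistributionalChaos

open Pool.Agent.Q201.Dist

/-- The class `R`: increasing sequences in `[1, ∞)` with `liminf m_n / n > 0`. -/
def ClassR (m : ℕ → ℝ) : Prop :=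
  StrictMono m ∧ (∀ n, 1 ≤ m n) ∧
    0 < liminf (fun n : ℕ => ENNReal.ofReal (m n) / (n : ℝ≥0∞)) atTop

/-- The number of elements of `A` in `[1, b]`. -/
noncomputable def count (A : Set ℕ) (b : ℝ) : ℕ := {j : ℕ | j ∈ A ∧ 1 ≤ j ∧ (j : ℝ) ≤ b}.ncard

/-- The lower `m_n`-density of `A`: `liminf_n |A ∩ [1, m_n]| / n`. -/
noncomputable def lowerDensity (m : ℕ → ℝ) (A : Set ℕ) : ℝ≥0∞ :=
  liminf (fun n : ℕ => (count A (m n) : ℝ≥0∞) / (n : ℝ≥0∞)) atTop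

/-- `m_n`-distributional chaos. -/
def DistrChaotic {𝕂 X : Type} [RCLike 𝕂] [NormedAddCommGroup X] [NormedSpace 𝕂 X]
    (m : ℕ → ℝ) (T : X →L[𝕂] X) : Prop :=
  ∃ S : Set X, ¬ S.Countable ∧ ∃ σ : ℝ, 0 < σ ∧ ∀ ε : ℝ, 0 < ε → ∀ x ∈ S, ∀ y ∈ S, x ≠ y →
    lowerDensity m {j | dist ((T ^ j) x) ((T ^ j) y) < σ} = 0 ∧
    lowerDensity m {j | ε ≤ dist ((T ^ j) x) ((T ^ j) y)} = 0

/-- A dense linear subspace of vectors whose orbits tend to `0`. -/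
def DenseNullOrbits {𝕂 X : Type} [RCLike 𝕂] [NormedAddCommGroup X] [NormedSpace 𝕂 X]
    (T : X →L[𝕂] X) : Prop :=
  ∃ X₀ : Submodule 𝕂 X, Dense (X₀ : Set X) ∧
    ∀ x ∈ X₀, Tendsto (fun n : ℕ => (T ^ n) x) atTop (𝓝 0)

/-- The Banach space `ℓ¹` of sequences of pairs. -/
abbrev Sp (𝕂 : Type) [RCLike 𝕂] : Type := lp (fun _ : ℕ => 𝕂 × 𝕂) 1

/-- natural number version of the scales -/
def Pn (k : ℕ) : ℕ := 2 ^ (10 * (k + 1) ^ 2)
/-- natural number version of the ends of influence -/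
def Mn (k : ℕ) : ℕ := 16 ^ k * Pn k

theorem Pn_cast (k : ℕ) : ((Pn k : ℕ) : ℝ) = P k := by unfold Pn P; push_cast; rfl

theorem Mn_cast (k : ℕ) : ((Mn k : ℕ) : ℝ) = M k := by
  unfold Mn M
  rw [Nat.cast_mul, Pn_cast]
  push_cast
  rfl

theorem Mn_pos (k : ℕ) : 1 ≤ Mn k := by
  unfold Mn Pn
  exact Nat.one_le_iff_ne_zero.2 (by positivity)

theorem count_finite (A : Set ℕ) (b : ℝ) : {j : ℕ | j ∈ A ∧ 1 ≤ j ∧ (j : ℝ) ≤ b}.Finite := by
  obtain ⟨N, hN⟩ := exists_nat_ge b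
  refine (Set.finite_Icc 0 N).subset fun j hj => ⟨Nat.zero_le _, ?_⟩
  exact_mod_cast hj.2.2.trans hN

theorem count_le (A : Set ℕ) (b : ℝ) (a : ℕ) (h : ∀ j ∈ A, 1 ≤ j → (j : ℝ) ≤ b → j ≤ a) :
    count A b ≤ a := by
  have h1 : {j : ℕ | j ∈ A ∧ 1 ≤ j ∧ (j : ℝ) ≤ b} ⊆ ((Finset.Icc 1 a : Finset ℕ) : Set ℕ) := by
    intro j hj
    rw [Finset.coe_Icc]
    exact ⟨hj.2.1, h j hj.1 hj.2.1 hj.2.2⟩
  refine (Set.ncard_le_ncard h1 (Finset.finite_toSet _)).trans ?_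
  rw [Set.ncard_coe_finset, Nat.card_Icc]
  omega

theorem le_count (A : Set ℕ) (b : ℝ) (a a' : ℕ) (ha : 1 ≤ a) (h' : (a' : ℝ) ≤ b)
    (h : ∀ j, a ≤ j → j ≤ a' → j ∈ A) : a' + 1 - a ≤ count A b := by
  have h1 : ((Finset.Icc a a' : Finset ℕ) : Set ℕ) ⊆ {j : ℕ | j ∈ A ∧ 1 ≤ j ∧ (j : ℝ) ≤ b} := by
    intro j hj
    rw [Finset.coe_Icc] at hj
    exact ⟨h j hj.1 hj.2, ha.trans hj.1, (Nat.cast_le.2 hj.2).trans h'⟩
  have h2 := Set.ncard_le_ncard h1 (count_finite A b)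
  rwa [Set.ncard_coe_finset, Nat.card_Icc] at h2

theorem dens_large {𝕂 : Type} [RCLike 𝕂] (c : 𝕂) (hc : c ≠ 0) (σ : ℝ) :
    lowerDensity (fun n => n) {j | ‖U 𝕂 j (c • y 𝕂)‖ < σ} = 0 := by
  have hφ : Tendsto (fun k : ℕ => 4 ^ k * Pn k) atTop atTop := by
    refine tendsto_atTop_mono (f := fun k : ℕ => k) (fun k => ?_) tendsto_id
    have h1 : k < 4 ^ k := Nat.lt_pow_self (by norm_num)
    have h2 : 1 ≤ Pn k := by unfold Pn; exact Nat.one_le_iff_ne_zero.2 (by positivity)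
    exact h1.le.trans (Nat.le_mul_of_pos_right _ h2)
  refine liminf_zero _ (fun k : ℕ => 4 ^ k * Pn k) hφ _ r1_tendsto ?_
  filter_upwards [large_times c hc σ] with k hk
  have h0 : count {j | ‖U 𝕂 j (c • y 𝕂)‖ < σ} ((4 ^ k * Pn k : ℕ) : ℝ) ≤ 2 ^ k * Pn k := by
    refine count_le _ _ _ fun j hj _ hj2 => ?_
    by_contra hlt
    refine absurd hj (not_lt.2 (hk j ?_ ?_))
    · rw [← Pn_cast]
      exact_mod_cast (not_le.1 hlt).le
    · rw [← Pn_cast]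
      exact_mod_cast hj2
  refine ENNReal.div_le_of_le_mul ?_
  rw [← ENNReal.ofReal_natCast, ← ENNReal.ofReal_natCast, ← ENNReal.ofReal_mul (by positivity)]
  refine ENNReal.ofReal_le_ofReal ?_
  have h1 : ((count {j | ‖U 𝕂 j (c • y 𝕂)‖ < σ} ((4 ^ k * Pn k : ℕ) : ℝ) : ℕ) : ℝ) ≤ 2 ^ k * P k := by
    rw [← Pn_cast]
    exact_mod_cast h0
  refine h1.trans ((ratio1 k).trans ?_)
  rw [Nat.cast_mul, Pn_cast]
  push_cast
  have : (0 : ℝ) < 2 * (1 / 2) ^ k := by positivity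
  nlinarith

theorem dens_small {𝕂 : Type} [RCLike 𝕂] (z : Sp 𝕂) (ε : ℝ) (hε : 0 < ε) :
    lowerDensity (fun n => n) {j | ε ≤ ‖U 𝕂 j z‖} = 0 := by
  have hφ : Tendsto (fun k : ℕ => Pn (k + 1)) atTop atTop := by
    refine tendsto_atTop_mono (f := fun k : ℕ => k) (fun k => ?_) tendsto_id
    unfold Pn
    have h1 : 10 * (k + 1 + 1) ^ 2 < 2 ^ (10 * (k + 1 + 1) ^ 2) := Nat.lt_pow_self (by norm_num)
    have h2 : k ≤ 10 * (k + 1 + 1) ^ 2 := by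
      have h3 : k + 1 + 1 ≤ (k + 1 + 1) ^ 2 := Nat.le_self_pow (by norm_num) _
      omega
    exact h2.trans h1.le
  refine liminf_zero _ (fun k : ℕ => Pn (k + 1)) hφ _ r1_tendsto ?_
  filter_upwards [small_times z ε hε] with k hk
  have h0 : count {j | ε ≤ ‖U 𝕂 j z‖} ((Pn (k + 1) : ℕ) : ℝ) ≤ Mn k := by
    refine count_le _ _ _ fun j hj _ hj2 => ?_
    by_contra hlt
    refine absurd (hk j ?_ ?_) (not_lt.2 hj)
    · rw [← Mn_cast]
      exact_mod_cast (not_le.1 hlt).le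
    · rw [← Pn_cast]
      exact_mod_cast hj2
  refine ENNReal.div_le_of_le_mul ?_
  rw [← ENNReal.ofReal_natCast, ← ENNReal.ofReal_natCast, ← ENNReal.ofReal_mul (by positivity)]
  refine ENNReal.ofReal_le_ofReal ?_
  have h1 : ((count {j | ε ≤ ‖U 𝕂 j z‖} ((Pn (k + 1) : ℕ) : ℝ) : ℕ) : ℝ) ≤ M k := by
    rw [← Mn_cast]
    exact_mod_cast h0
  refine h1.trans ((ratio2 k).trans ?_)
  rw [Pn_cast]
  have : (0 : ℝ) < 2 * (1 / 2) ^ k := by positivity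
  nlinarith

theorem dens_pos {𝕂 : Type} [RCLike 𝕂] (z : Sp 𝕂) (σ : ℝ) (hσ : 0 < σ) :
    lowerDensity (fun n => (n : ℝ) ^ 2 + 1) {j | ‖U 𝕂 j z‖ < σ} ≠ 0 := by
  obtain ⟨K, hK⟩ := (small_times z σ hσ).exists_forall_of_atTop
  have h1 : ∀ᶠ n : ℕ in atTop, (1 : ℝ≥0∞) ≤
      (count {j | ‖U 𝕂 j z‖ < σ} ((n : ℝ) ^ 2 + 1) : ℝ≥0∞) / (n : ℝ≥0∞) := by
    filter_upwards [eventually_gt_atTop 0, tendsto_natCast_atTop_atTop.eventually_ge_atTop (2 * M K)]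
      with n hn0 hn1
    have hN : 2 * M K ≤ 1 + (n : ℝ) ^ 2 := by nlinarith [sq_nonneg ((n : ℝ) - 1)]
    have hn0' : (n : ℝ≥0∞) ≠ 0 := by exact_mod_cast hn0.ne'
    rw [ENNReal.le_div_iff_mul_le (Or.inl hn0') (Or.inl (ENNReal.natCast_ne_top n)), one_mul]
    have goal : n ≤ count {j | ‖U 𝕂 j z‖ < σ} ((n : ℝ) ^ 2 + 1) := by
      obtain ⟨k, hk, h⟩ := window K n hN
      rcases h with ⟨h2, h3⟩ | ⟨h2, h3⟩
      · have h4 : n + Mn k ≤ n ^ 2 + 1 := by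
          rw [← Mn_cast] at h3
          have : (n : ℝ) + (Mn k : ℕ) ≤ (n : ℝ) ^ 2 + 1 := by linarith
          exact_mod_cast this
        have h5 := le_count {j | ‖U 𝕂 j z‖ < σ} ((n : ℝ) ^ 2 + 1) (Mn k) (n ^ 2 + 1) (Mn_pos k)
          (by push_cast; exact le_rfl) (fun j hj hj' => by
            refine hK k hk j ?_ ?_
            · rw [← Mn_cast]; exact_mod_cast hj
            · refine le_trans ?_ h2
              have : (j : ℝ) ≤ ((n ^ 2 + 1 : ℕ) : ℝ) := by exact_mod_cast hj'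
              push_cast at this
              linarith)
        omega
      · have h4 : n + Mn k ≤ Pn (k + 1) := by
          rw [← Mn_cast, ← Pn_cast] at h3
          have : (n : ℝ) + (Mn k : ℕ) ≤ (Pn (k + 1) : ℕ) := by linarith
          exact_mod_cast this
        have h5 := le_count {j | ‖U 𝕂 j z‖ < σ} ((n : ℝ) ^ 2 + 1) (Mn k) (Pn (k + 1)) (Mn_pos k)
          (by rw [Pn_cast]; linarith) (fun j hj hj' => by
            refine hK k hk j ?_ ?_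
            · rw [← Mn_cast]; exact_mod_cast hj
            · rw [← Pn_cast]; exact_mod_cast hj')
        omega
    exact_mod_cast goal
  intro h0
  have h2 : (1 : ℝ≥0∞) ≤ 0 := by
    rw [← h0]
    exact le_liminf_of_le (by isBoundedDefault) h1
  exact absurd h2 (by norm_num)

/-- For `𝕂 = ℝ` or `ℂ` there is an operator on the separable Banach space `ℓ¹(ℕ, 𝕂²)` with a
dense linear subspace of vectors with null orbits, which is distributionally chaotic and is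
not `m_n`-distributionally chaotic for `m_n = n² + 1`, a sequence of the class `R`. -/
theorem result (𝕂 : Type) [RCLike 𝕂] :
    ClassR (fun n => (n : ℝ) ^ 2 + 1) ∧
    ∃ T : Sp 𝕂 →L[𝕂] Sp 𝕂, DenseNullOrbits T ∧
      DistrChaotic (fun n => n) T ∧ ¬ DistrChaotic (fun n => (n : ℝ) ^ 2 + 1) T := by
  refine ⟨⟨?_, ?_, ?_⟩, U 𝕂 1,
    ⟨X0 𝕂, X0_dense, fun x ⟨K, hK⟩ => ?_⟩, ?_, ?_⟩
  · intro a b hab
    have ha : (0 : ℝ) ≤ a := Nat.cast_nonneg a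
    have hab' : (a : ℝ) < b := by exact_mod_cast hab
    simp only
    nlinarith
  · intro n
    nlinarith [sq_nonneg (n : ℝ)]
  · refine lt_of_lt_of_le (by norm_num : (0 : ℝ≥0∞) < 1) (le_liminf_of_le (by isBoundedDefault) ?_)
    filter_upwards [eventually_gt_atTop 0] with n hn
    have hn0' : (n : ℝ≥0∞) ≠ 0 := by exact_mod_cast hn.ne'
    rw [ENNReal.le_div_iff_mul_le (Or.inl hn0') (Or.inl (ENNReal.natCast_ne_top n)), one_mul,
      ← ENNReal.ofReal_natCast]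
    exact ENNReal.ofReal_le_ofReal (by nlinarith [sq_nonneg ((n : ℝ) - 1)])
  · simp only [U_pow]
    exact (null_orbit x K hK).comp tendsto_natCast_atTop_atTop
  · refine ⟨Set.range fun c : ℝ => ((c : 𝕂)) • y 𝕂, uncountable_line, 1, one_pos, ?_⟩
    rintro ε hε _ ⟨a, rfl⟩ _ ⟨b, rfl⟩ hne
    have hab : ((a : 𝕂) - (b : 𝕂)) ≠ 0 := by
      intro h
      apply hne
      simp only [sub_eq_zero.1 h]
    have e : ∀ j : ℕ, dist (((U 𝕂 1) ^ j) ((a : 𝕂) • y 𝕂)) (((U 𝕂 1) ^ j) ((b : 𝕂) • y 𝕂)) =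
        ‖U 𝕂 j (((a : 𝕂) - (b : 𝕂)) • y 𝕂)‖ := by
      intro j
      rw [U_pow, dist_eq_norm, sub_smul, map_sub]
    simp only [e]
    exact ⟨dens_large _ hab 1, dens_small _ ε hε⟩
  · rintro ⟨S, hS, σ, hσ, h⟩
    have hnt : S.Nontrivial := by
      by_contra hn
      exact hS (Set.not_nontrivial_iff.1 hn).countable
    obtain ⟨x, hx, y, hy, hne⟩ := hnt
    have h1 := (h 1 one_pos x hx y hy hne).1
    have e : ∀ j : ℕ, dist (((U 𝕂 1) ^ j) x) (((U 𝕂 1) ^ j) y) = ‖U 𝕂 j (x - y)‖ := by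
      intro j
      rw [U_pow, dist_eq_norm, map_sub]
    simp only [e] at h1
    exact dens_pos (x - y) σ hσ h1

end Pool.Agent.Results.MP_890ea4_an.DistributionalChaos
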